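import Pool.Agent.H278.TD.All
import Pool.Agent.H278.TD.T_Dig

/-!
# Arc-disjoint directed cycles in dense regular digraphs

For every `ε > 0` and all sufficiently large `n`, every `k`-regular digraph on `n` vertices without
parallel arcs (pairs of opposite arcs are allowed) contains at least `(k+1 choose 2) - ε n²` pairwise
arc-disjoint directed cycles. So the conjecture of Alon, McDiarmid and Molloy holds asymptotically for
dense digraphs.
-/

set_option autoImplicit false
set_option linter.all false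

open Finset Pool.Agent.H278.TD
open Pool.Agent.Results.MP_2634a8_co.Fractional (DiCycle)

namespace Pool.Agent.Results.MP_2634a8_co.DenseAsymptotic

theorem dig : S_dig := Pool.Agent.H661.TD.dig pk

theorem arcs_iff {V : Type} [DecidableEq V] {A B : V → V → Prop} (C : DiCycle A) (u v : V) :
    (u, v) ∈ arcs C ↔ C.Uses u v := by
  unfold arcs DiCycle.Uses
  rw [mem_image]
  constructor
  · rintro ⟨i, _, h⟩
    exact ⟨i, congrArg Prod.fst h, congrArg Prod.snd h⟩
  · rintro ⟨i, h1, h2⟩
    exact ⟨i, mem_univ _, Prod.ext h1 h2⟩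

/-- the general form for balanced digraphs -/
theorem main (ε : ℝ) (hε : 0 < ε) : ∃ n₀ : ℕ, ∀ (V : Type) [Fintype V], n₀ ≤ Fintype.card V →
    ∀ A : V → V → Prop, (∀ v, ¬ A v v) → ∀ d : V → ℕ, (∀ v, Nat.card {w // A v w} = d v) →
    (∀ v, Nat.card {w // A w v} = d v) →
    ∃ (N : ℕ) (C : Fin N → DiCycle A), (∀ i j, i ≠ j → ∀ u v, (C i).Uses u v → ¬ (C j).Uses u v) ∧
      (∑ v, ((d v + 1).choose 2 : ℝ)) / Fintype.card V - ε * (Fintype.card V : ℝ) ^ 2 ≤ N := by
  classical
  obtain ⟨n₀, hn₀⟩ := dig (ε / 2) (by positivity)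
  obtain ⟨n₁, hn₁⟩ := exists_nat_ge (1 / ε)
  refine ⟨max (max n₀ n₁) 1, fun V _ hV A hloop d hout hin => ?_⟩
  set E : Finset (V × V) := univ.filter fun e => A e.1 e.2 with hE
  have hmem : ∀ u v, (u, v) ∈ E ↔ A u v := fun u v => by simp [hE]
  have hodg : ∀ v, odg E v = d v := by
    intro v
    rw [← hout v, Nat.card_eq_fintype_card, Fintype.card_subtype]
    unfold odg
    refine Finset.card_bij' (fun e _ => e.2) (fun w _ => (v, w)) ?_ ?_ ?_ ?_
    · intro e he
      simp only [hE, mem_filter, mem_univ, true_and] at he ⊢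
      rw [← he.2]
      exact he.1
    · intro w hw
      simp only [hE, mem_filter, mem_univ, true_and] at hw ⊢
      exact ⟨hw, trivial⟩
    · intro e he
      simp only [hE, mem_filter, mem_univ, true_and] at he
      exact Prod.ext he.2.symm rfl
    · intro w hw
      rfl
  have hidg : ∀ v, idg E v = d v := by
    intro v
    rw [← hin v, Nat.card_eq_fintype_card, Fintype.card_subtype]
    unfold idg
    refine Finset.card_bij' (fun e _ => e.1) (fun w _ => (w, v)) ?_ ?_ ?_ ?_
    · intro e he
      simp only [hE, mem_filter, mem_univ, true_and] at he ⊢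
      rw [← he.2]
      exact he.1
    · intro w hw
      simp only [hE, mem_filter, mem_univ, true_and] at hw ⊢
      exact ⟨hw, trivial⟩
    · intro e he
      simp only [hE, mem_filter, mem_univ, true_and] at he
      exact Prod.ext rfl he.2.symm
    · intro w hw
      rfl
  obtain ⟨c, C, hd, hc⟩ := hn₀ V ((le_max_left _ _).trans ((le_max_left _ _).trans hV)) E
    (fun v h => hloop v ((hmem v v).1 h)) (fun v => by rw [hodg, hidg])
  refine ⟨c, fun i => ⟨(C i).len, (C i).vert, (C i).inj, fun j => (hmem _ _).1 ((C i).adj j)⟩, ?_, ?_⟩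
  · intro i j hij u v hi hj
    have h1 : (u, v) ∈ arcs (C i) := (arcs_iff (B := A) (C i) u v).2 hi
    have h2 : (u, v) ∈ arcs (C j) := (arcs_iff (B := A) (C j) u v).2 hj
    exact (disjoint_left.1 (hd i j hij)) h1 h2
  · refine le_trans ?_ hc
    have hn : (1 : ℝ) ≤ Fintype.card V := by
      have : 1 ≤ Fintype.card V := (le_max_right _ _).trans hV
      exact_mod_cast this
    have hεn : 1 ≤ ε * Fintype.card V := by
      have h1 : n₁ ≤ Fintype.card V := (le_max_right _ _).trans ((le_max_left _ _).trans hV)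
      have h2 : (n₁ : ℝ) ≤ Fintype.card V := by exact_mod_cast h1
      have h3 : 1 / ε ≤ Fintype.card V := hn₁.trans h2
      rw [div_le_iff₀ hε] at h3
      linarith
    have hdle : ∀ v, (d v : ℝ) ≤ Fintype.card V := by
      intro v
      have : d v ≤ Fintype.card V := by
        rw [← hout v, Nat.card_eq_fintype_card]
        exact Fintype.card_subtype_le _
      exact_mod_cast this
    have h1 : ∑ v, ((d v + 1).choose 2 : ℝ) = (∑ v, (d v : ℝ) ^ 2) / 2 + (∑ v, (d v : ℝ)) / 2 := by
      rw [Finset.sum_div, Finset.sum_div, ← Finset.sum_add_distrib]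
      refine Finset.sum_congr rfl fun v _ => ?_
      rw [Nat.cast_choose_two]
      push_cast
      ring
    have h2 : ∑ v, (d v : ℝ) ≤ (Fintype.card V : ℝ) ^ 2 := by
      refine (Finset.sum_le_sum fun v _ => hdle v).trans (le_of_eq ?_)
      rw [Finset.sum_const, Finset.card_univ, nsmul_eq_mul]
      ring
    simp only [hodg]
    rw [h1]
    set N : ℝ := (Fintype.card V : ℝ) with hN
    have hN0 : 0 < N := by linarith
    have h3 : ((∑ v, (d v : ℝ) ^ 2) / 2 + (∑ v, (d v : ℝ)) / 2) / N =
        (∑ v, (d v : ℝ) ^ 2) / (2 * N) + (∑ v, (d v : ℝ)) / (2 * N) := by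
      field_simp
    have h4 : (∑ v, (d v : ℝ)) / (2 * N) ≤ ε / 2 * N ^ 2 := by
      rw [div_le_iff₀ (by positivity)]
      nlinarith
    rw [h3]
    linarith

/-- For every `ε > 0` there is `n₀` such that every digraph without loops and parallel arcs on `n ≥ n₀`
vertices in which every vertex `v` has in-degree and out-degree `d v` contains at least
`(∑ v, (d v + 1 choose 2)) / n - ε n²` pairwise arc-disjoint directed cycles; if it is `k`-regular this
is `(k+1 choose 2) - ε n²`. -/
theorem result (ε : ℝ) (hε : 0 < ε) : ∃ n₀ : ℕ, ∀ (V : Type) [Fintype V], n₀ ≤ Fintype.card V →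
    ∀ A : V → V → Prop, (∀ v, ¬ A v v) → ∀ d : V → ℕ, (∀ v, Nat.card {w // A v w} = d v) →
    (∀ v, Nat.card {w // A w v} = d v) →
    ∃ (N : ℕ) (C : Fin N → DiCycle A), (∀ i j, i ≠ j → ∀ u v, (C i).Uses u v → ¬ (C j).Uses u v) ∧
      (∑ v, ((d v + 1).choose 2 : ℝ)) / Fintype.card V - ε * (Fintype.card V : ℝ) ^ 2 ≤ N :=
  main ε hε

end Pool.Agent.Results.MP_2634a8_co.DenseAsymptotic
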